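import Mathlib
import Pool.Agent.Y84.BR.Main

set_option autoImplicit false

/-!
Retracts of free Burnside groups.
-/

namespace Pool.Agent.Results.MP_836feb_al.NonFreeRetracts

universe u v

/-- The free Burnside group of exponent `n` with set of free generators `X`: the free group on `X`
modulo the normal subgroup generated by all `n`-th powers. -/
abbrev FreeBurnside (X : Type u) (n : ℕ) : Type u :=
  FreeGroup X ⧸ Subgroup.normalClosure (Set.range fun w : FreeGroup X => w ^ n)

/-- The subgroup `H` is a retract of `G`. -/
def IsRetract {G : Type u} [Group G] (H : Subgroup G) : Prop :=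
  ∃ ρ : G →* H, ∀ h : H, ρ h = h

/-- 1. Let `n > 1` be an integer which is not a power of a prime. Then every free Burnside group of
exponent `n` and of rank `m ≥ 1` (finite or infinite) has a retract that is not isomorphic to any
free Burnside group of exponent `n`; this retract is cyclic of an order `a` with `1 < a < n`.
2. In particular, for infinitely many odd `n` there is a free Burnside group of exponent `n` and rank
`m ≥ 1` (every such group is an example) with a retract that is not free. -/
theorem result :
    (∀ n : ℕ, 1 < n → ¬ IsPrimePow n → ∀ (X : Type u) [Nonempty X],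
      ∃ H : Subgroup (FreeBurnside X n), IsRetract H ∧
        (∃ a : ℕ, 1 < a ∧ a < n ∧ Nonempty (H ≃* Multiplicative (ZMod a))) ∧
        ∀ Y : Type v, IsEmpty (H ≃* FreeBurnside Y n)) ∧
    (∀ N : ℕ, ∃ n : ℕ, N ≤ n ∧ Odd n ∧ ∀ (X : Type u) [Nonempty X],
      ∃ H : Subgroup (FreeBurnside X n), IsRetract H ∧
        ∀ Y : Type v, IsEmpty (H ≃* FreeBurnside Y n)) := by
  have key : ∀ a b : ℕ, 1 < a → 1 < b → a.Coprime b → ∀ (X : Type u) [Nonempty X],
      ∃ H : Subgroup (FreeBurnside X (a * b)), IsRetract H ∧
        Nonempty (H ≃* Multiplicative (ZMod a)) ∧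
        ∀ Y : Type v, IsEmpty (H ≃* FreeBurnside Y (a * b)) :=
    fun a b ha hb hab X _ => Pool.Agent.Y84.BR.main ha hb hab X
  constructor
  · intro n hn hnp X _
    have hn0 : n ≠ 0 := by omega
    have hp : n.minFac.Prime := Nat.minFac_prime (by omega)
    have hk : 0 < n.factorization n.minFac :=
      hp.factorization_pos_of_dvd hn0 (Nat.minFac_dvd n)
    have hmul : n.minFac ^ n.factorization n.minFac * (n / n.minFac ^ n.factorization n.minFac) =
        n := Nat.ordProj_mul_ordCompl_eq_self n n.minFac
    have ha : 1 < n.minFac ^ n.factorization n.minFac := Nat.one_lt_pow hk.ne' hp.one_lt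
    have hb : 1 < n / n.minFac ^ n.factorization n.minFac := by
      rcases Nat.lt_or_ge 1 (n / n.minFac ^ n.factorization n.minFac) with h | h
      · exact h
      · exfalso
        apply hnp
        have h0 : n / n.minFac ^ n.factorization n.minFac ≠ 0 := by
          intro h0
          rw [h0, mul_zero] at hmul
          exact hn0 hmul.symm
        have h1 : n / n.minFac ^ n.factorization n.minFac = 1 :=
          le_antisymm h (Nat.one_le_iff_ne_zero.2 h0)
        rw [h1, mul_one] at hmul
        rw [← hmul]
        exact hp.isPrimePow.pow hk.ne'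
    have hco := (Nat.coprime_ordCompl hp hn0).pow_left (n.factorization n.minFac)
    have h := key _ _ ha hb hco X
    rw [hmul] at h
    obtain ⟨H, h1, h2, h3⟩ := h
    exact ⟨H, h1, ⟨_, ha, by nlinarith, h2⟩, h3⟩
  · intro N
    refine ⟨3 * 5 ^ (N + 1), ?_, ?_, ?_⟩
    · have h1 : N < 5 ^ N := Nat.lt_pow_self (by norm_num)
      have h2 : 5 ^ (N + 1) = 5 * 5 ^ N := by ring
      omega
    · exact Odd.mul (by decide) (Odd.pow (by decide))
    · intro X _
      obtain ⟨H, h1, -, h3⟩ := key 3 (5 ^ (N + 1)) (by norm_num)
        (Nat.one_lt_pow (Nat.succ_ne_zero N) (by norm_num)) (Nat.Coprime.pow_right _ (by norm_num)) X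
      exact ⟨H, h1, h3⟩

end Pool.Agent.Results.MP_836feb_al.NonFreeRetracts
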